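import Pool.Agent.H16.SQ.E2
import Pool.Graph.R_pool_sql_team_seeded_35f281b4.K7.H67.BG.Box

set_option autoImplicit false

/-!
# Sets nearly invariant under dilations: Fourier coefficients and energies
-/

namespace Pool.Agent.H16.DI

open Finset

variable {p : ℕ} [Fact p.Prime]

/-- the exponential sum over a set -/
noncomputable def F (X : Finset (ZMod p)) (b : ZMod p) : ℂ := ∑ x ∈ X, ZMod.stdAddChar (b * x)

theorem norm_F_le (X : Finset (ZMod p)) (b : ZMod p) : ‖F X b‖ ≤ X.card := by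
  unfold F
  refine (norm_sum_le _ _).trans ?_
  simp [AddChar.norm_apply]

/-- replacing `X` by `g X` in a sum -/
theorem dilate_sum (X : Finset (ZMod p)) (g : ZMod p) (hg : g ≠ 0) (f : ZMod p → ℂ) (hf : ∀ x, ‖f x‖ ≤ 1) :
    ‖∑ x ∈ X, f (g * x) - ∑ x ∈ X, f x‖ ≤ 2 * (((X.image (g * ·)) \ X).card : ℝ) := by
  classical
  have hinj : Function.Injective (g * · : ZMod p → ZMod p) := mul_right_injective₀ hg
  set Y := X.image (g * ·) with hY
  have h1 : ∑ x ∈ X, f (g * x) = ∑ y ∈ Y, f y := by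
    rw [hY, sum_image (fun a _ b _ h => hinj h)]
  have hc : Y.card = X.card := by rw [hY, card_image_of_injective _ hinj]
  have h2 : (X \ Y).card = (Y \ X).card := by
    have e1 := card_sdiff_add_card_inter X Y
    have e2 := card_sdiff_add_card_inter Y X
    rw [inter_comm Y X] at e2
    omega
  have h3 : ∑ y ∈ Y, f y - ∑ x ∈ X, f x = ∑ y ∈ Y \ X, f y - ∑ x ∈ X \ Y, f x := by
    exact (sum_sdiff_sub_sum_sdiff).symm
  rw [h1, h3]
  have b1 : ∀ s : Finset (ZMod p), ‖∑ y ∈ s, f y‖ ≤ s.card := by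
    intro s
    refine (norm_sum_le _ _).trans ((sum_le_sum fun x _ => hf x).trans ?_)
    simp
  calc ‖∑ y ∈ Y \ X, f y - ∑ x ∈ X \ Y, f x‖ ≤ ‖∑ y ∈ Y \ X, f y‖ + ‖∑ x ∈ X \ Y, f x‖ := norm_sub_le _ _
    _ ≤ (Y \ X).card + (X \ Y).card := add_le_add (b1 _) (b1 _)
    _ = _ := by rw [h2]; ring

/-- `X` is nearly invariant under the multiplication by the elements of `G` -/
def Inv (ε : ℝ) (G X : Finset (ZMod p)) : Prop :=
  ∀ g ∈ G, (((X.image (g * ·)) \ X).card : ℝ) ≤ (p : ℝ) ^ (-ε) * X.card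

open Pool.Agent.K7.H67.BG Pool.Agent.Y881.SP in
/-- the Fourier coefficients of a nearly invariant set -/
theorem fourier (δ : ℝ) (hδ : 0 < δ) : ∃ k₀ : ℕ, ∃ γ : ℝ, 0 < γ ∧ ∃ p₀ : ℕ, ∀ (p : ℕ) [Fact p.Prime], p₀ ≤ p →
    ∀ ε : ℝ, ∀ G X : Finset (ZMod p), (0 : ZMod p) ∉ G → (p : ℝ) ^ δ ≤ G.card → (p : ℝ) ^ δ ≤ X.card →
      Inv ε G X → ∀ a : ZMod p, a ≠ 0 → ‖F X a‖ ≤ (2 * k₀ * (p : ℝ) ^ (-ε) + (p : ℝ) ^ (-γ)) * X.card := by
  obtain ⟨k₀, γ, hγ, p₀, h⟩ := multi δ hδ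
  refine ⟨k₀, γ, hγ, p₀, fun p _ hp ε G X h0 hG hX hinv a ha => ?_⟩
  have hp0 : (0 : ℝ) < p := by exact_mod_cast (Fact.out : p.Prime).pos
  have hG0 : (0:ℝ) < G.card := lt_of_lt_of_le (by positivity) hG
  have hX0 : (0:ℝ) < X.card := lt_of_lt_of_le (by positivity) hX
  have hGne : G.Nonempty := by rw [← card_pos]; exact_mod_cast hG0
  have hXne : X.Nonempty := by rw [← card_pos]; exact_mod_cast hX0
  have hsup : ∀ (Y : Finset (ZMod p)), (p : ℝ) ^ δ ≤ Y.card → ∀ x, uni Y x ≤ (p : ℝ) ^ (-δ) := fun Y hY x =>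
    (uni_le Y x).trans (by
      rw [Real.rpow_neg hp0.le]
      exact inv_anti₀ (by positivity) hY)
  have h1 := h p hp (List.replicate k₀ (uni G)) (by simp) (by
    intro ℓ hℓ
    rw [List.mem_replicate] at hℓ
    obtain ⟨_, rfl⟩ := hℓ
    refine ⟨uni_Lw G hGne, ?_, hsup G hG⟩
    unfold uni
    rw [if_neg h0]) (uni X) (uni_Lw X hXne) (hsup X hX) a ha
  have h2 : ∀ b, ‖avg (uni G) (ft (uni X)) b - ft (uni X) b‖ ≤ 2 * (p : ℝ) ^ (-ε) := by
    intro b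
    rw [avg_uni]
    have e1 : (G.card : ℂ)⁻¹ * ∑ x ∈ G, ft (uni X) (b * x) - ft (uni X) b =
        (G.card : ℂ)⁻¹ * ∑ g ∈ G, (ft (uni X) (b * g) - ft (uni X) b) := by
      rw [sum_sub_distrib, sum_const, nsmul_eq_mul, mul_sub, ← mul_assoc, inv_mul_cancel₀, one_mul]
      exact_mod_cast hG0.ne'
    rw [e1, norm_mul, norm_inv, Complex.norm_natCast]
    have h3 : ∀ g ∈ G, ‖ft (uni X) (b * g) - ft (uni X) b‖ ≤ 2 * (p : ℝ) ^ (-ε) := by
      intro g hg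
      have hg0 : g ≠ 0 := fun h => h0 (h ▸ hg)
      rw [ft_uni, ft_uni, ← mul_sub, norm_mul, norm_inv, Complex.norm_natCast]
      have h4 := dilate_sum X g hg0 (fun x => ZMod.stdAddChar (b * x)) (fun x => (AddChar.norm_apply _ _).le)
      simp_rw [← mul_assoc] at h4
      have h5 := hinv g hg
      rw [inv_mul_le_iff₀ hX0]
      refine h4.trans ?_
      linarith
    rw [inv_mul_le_iff₀ hG0]
    refine (norm_sum_le _ _).trans ((sum_le_sum h3).trans ?_)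
    rw [sum_const, nsmul_eq_mul]
  have h3 := T_near (uni G) (uni_Lw G hGne) (ft (uni X)) _ h2 k₀ a
  have h4 : ‖ft (uni X) a‖ ≤ 2 * k₀ * (p : ℝ) ^ (-ε) + (p : ℝ) ^ (-γ) := by
    have e : ft (uni X) a = T (List.replicate k₀ (uni G)) (ft (uni X)) a -
      (T (List.replicate k₀ (uni G)) (ft (uni X)) a - ft (uni X) a) := by ring
    rw [e]
    refine (norm_sub_le _ _).trans ?_
    linarith
  rw [ft_uni, norm_mul, norm_inv, Complex.norm_natCast, inv_mul_le_iff₀ hX0] at h4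
  unfold F
  linarith

/-- the number of the solutions of `x - y = x' - y'` -/
noncomputable def en (X Y : Finset (ZMod p)) : ℕ := SQ.coll (X ×ˢ Y) (fun w => w.1 - w.2)

theorem four (X Y : Finset (ZMod p)) : ∑ b : ZMod p, ‖F X b‖ ^ 2 * ‖F Y b‖ ^ 2 = p * en X Y := by
  classical
  have h1 : ∀ b : ZMod p, ((‖F X b‖ ^ 2 * ‖F Y b‖ ^ 2 : ℝ) : ℂ) = ∑ w ∈ (X ×ˢ Y) ×ˢ (X ×ˢ Y),
      ZMod.stdAddChar (b * ((w.1.1 - w.1.2) - (w.2.1 - w.2.2))) := by
    intro b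
    have e0 : ((‖F X b‖ ^ 2 * ‖F Y b‖ ^ 2 : ℝ) : ℂ) =
        (F X b * (starRingEnd ℂ) (F Y b)) * (starRingEnd ℂ) (F X b * (starRingEnd ℂ) (F Y b)) := by
      rw [Complex.mul_conj', norm_mul, RCLike.norm_conj]
      push_cast; ring
    have e1 : F X b * (starRingEnd ℂ) (F Y b) = ∑ w ∈ X ×ˢ Y, ZMod.stdAddChar (b * (w.1 - w.2)) := by
      unfold F
      rw [map_sum, sum_mul_sum, ← sum_product']
      refine sum_congr rfl fun w _ => ?_
      rw [← AddChar.map_neg_eq_conj, ← AddChar.map_add_eq_mul]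
      congr 1; ring
    rw [e0, e1, map_sum, sum_mul_sum, ← sum_product']
    refine sum_congr rfl fun w _ => ?_
    rw [← AddChar.map_neg_eq_conj, ← AddChar.map_add_eq_mul]
    congr 1; ring
  have h2 : ((∑ b : ZMod p, ‖F X b‖ ^ 2 * ‖F Y b‖ ^ 2 : ℝ) : ℂ) = ((p * en X Y : ℝ) : ℂ) := by
    rw [Complex.ofReal_sum, sum_congr rfl fun b _ => h1 b, sum_comm]
    have h3 : ∀ w ∈ (X ×ˢ Y) ×ˢ (X ×ˢ Y), ∑ b : ZMod p, (ZMod.stdAddChar (b * ((w.1.1 - w.1.2) - (w.2.1 - w.2.2))) : ℂ)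
        = if w.1.1 - w.1.2 = w.2.1 - w.2.2 then (p : ℂ) else 0 := by
      intro w _
      have := AddChar.sum_mulShift ((w.1.1 - w.1.2) - (w.2.1 - w.2.2)) (ZMod.isPrimitive_stdAddChar p)
      rw [ZMod.card] at this
      rw [this]
      simp only [sub_eq_zero]
      split_ifs <;> simp
    rw [sum_congr rfl h3, ← sum_filter, sum_const, nsmul_eq_mul]
    unfold en SQ.coll
    push_cast
    ring
  exact_mod_cast h2

theorem parseval (X : Finset (ZMod p)) : ∑ b : ZMod p, ‖F X b‖ ^ 2 = p * X.card := by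
  classical
  have h := four X ({0} : Finset (ZMod p))
  have e1 : ∀ b : ZMod p, ‖F ({0} : Finset (ZMod p)) b‖ = 1 := by
    intro b
    unfold F
    simp
  simp_rw [e1, one_pow, mul_one] at h
  rw [h]
  congr 2
  unfold en SQ.coll
  rw [← card_image_of_injective X (f := fun x : ZMod p => ((x, (0 : ZMod p)), (x, (0 : ZMod p)))) ?_]
  · congr 1
    ext w
    simp only [mem_filter, mem_product, mem_singleton, mem_image]
    constructor
    · rintro ⟨⟨⟨h1, h2⟩, h3, h4⟩, h5⟩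
      refine ⟨w.1.1, h1, ?_⟩
      have : w.1.1 = w.2.1 := by rw [h2, h4] at h5; simpa using h5
      refine Prod.ext (Prod.ext rfl h2.symm) (Prod.ext this h4.symm)
    · rintro ⟨x, hx, rfl⟩
      exact ⟨⟨⟨hx, rfl⟩, hx, rfl⟩, rfl⟩
  · intro a b hab
    exact (Prod.ext_iff.1 (Prod.ext_iff.1 hab).1).1

/-- Cauchy's inequality for the energies -/
theorem en_le (X Y : Finset (ZMod p)) (A B : ℝ) (hA : (en X X : ℝ) ≤ A ^ 2) (hB : (en Y Y : ℝ) ≤ B ^ 2)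
    (hA0 : 0 ≤ A) (hB0 : 0 ≤ B) : (en X Y : ℝ) ≤ A * B := by
  have hp0 : (0 : ℝ) < p := by exact_mod_cast (Fact.out : p.Prime).pos
  have h1 := four X Y
  have h2 := four X X
  have h3 := four Y Y
  have h4 := sum_mul_sq_le_sq_mul_sq (univ : Finset (ZMod p)) (fun b => ‖F X b‖ ^ 2) (fun b => ‖F Y b‖ ^ 2)
  have e1 : ∀ Z : Finset (ZMod p), ∑ b : ZMod p, (‖F Z b‖ ^ 2) ^ 2 = ∑ b : ZMod p, ‖F Z b‖ ^ 2 * ‖F Z b‖ ^ 2 :=
    fun Z => sum_congr rfl fun b _ => by ring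
  rw [e1, e1, h1, h2, h3] at h4
  have h5 : ((en X Y : ℝ)) ^ 2 ≤ (A * B) ^ 2 := by
    have h6 : (p * en X Y : ℝ) ^ 2 ≤ p ^ 2 * (A * B) ^ 2 := by
      calc (p * en X Y : ℝ) ^ 2 ≤ p * en X X * (p * en Y Y) := h4
        _ ≤ p * A ^ 2 * (p * B ^ 2) := by gcongr
        _ = _ := by ring
    rw [mul_pow] at h6
    exact le_of_mul_le_mul_left h6 (by positivity)
  exact abs_le_of_sq_le_sq' h5 (by positivity) |>.2

/-- small Fourier coefficients give a small energy -/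
theorem en_small (X : Finset (ZMod p)) (η : ℝ) (h : ∀ a : ZMod p, a ≠ 0 → ‖F X a‖ ≤ η * X.card) :
    (en X X : ℝ) ≤ (X.card : ℝ) ^ 4 / p + η ^ 2 * (X.card : ℝ) ^ 3 := by
  classical
  have hp0 : (0 : ℝ) < p := by exact_mod_cast (Fact.out : p.Prime).pos
  have h1 := four X X
  rw [← add_sum_erase (univ : Finset (ZMod p)) _ (mem_univ (0 : ZMod p))] at h1
  have h2 : ‖F X (0 : ZMod p)‖ = X.card := by
    unfold F
    simp
  have h3 : ∑ b ∈ univ.erase (0 : ZMod p), ‖F X b‖ ^ 2 * ‖F X b‖ ^ 2 ≤ (η * X.card) ^ 2 * (p * X.card) := by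
    rw [← parseval X, mul_sum]
    refine (sum_le_sum (f := fun b => ‖F X b‖ ^ 2 * ‖F X b‖ ^ 2) (g := fun b => (η * X.card) ^ 2 * ‖F X b‖ ^ 2)
      fun b hb => ?_).trans (sum_le_sum_of_subset_of_nonneg (subset_univ _) fun b _ _ => by positivity)
    have := h b (ne_of_mem_erase hb)
    show ‖F X b‖ ^ 2 * ‖F X b‖ ^ 2 ≤ (η * X.card) ^ 2 * ‖F X b‖ ^ 2
    gcongr
  rw [h2] at h1
  have h4 : (p : ℝ) * en X X ≤ p * ((X.card : ℝ) ^ 4 / p + η ^ 2 * (X.card : ℝ) ^ 3) := by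
    rw [← h1]
    have : (p : ℝ) * ((X.card : ℝ) ^ 4 / p + η ^ 2 * (X.card : ℝ) ^ 3) =
        (X.card : ℝ) ^ 4 + (η * X.card) ^ 2 * (p * X.card) := by
      field_simp
    rw [this]
    nlinarith
  exact le_of_mul_le_mul_left h4 hp0

theorem en_eq (X : Finset (ZMod p)) : en X X = Finset.addEnergy X X := by
  classical
  unfold en SQ.coll Finset.addEnergy
  refine card_bij' (fun w _ => ((w.1.1, w.2.1), (w.2.2, w.1.2))) (fun w _ => ((w.1.1, w.2.2), (w.1.2, w.2.1)))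
    ?_ ?_ ?_ ?_
  · intro w hw
    simp only [mem_filter, mem_product] at hw ⊢
    obtain ⟨⟨⟨h1, h2⟩, h3, h4⟩, h5⟩ := hw
    refine ⟨⟨⟨h1, h3⟩, h4, h2⟩, ?_⟩
    linear_combination h5
  · intro w hw
    simp only [mem_filter, mem_product] at hw ⊢
    obtain ⟨⟨⟨h1, h2⟩, h3, h4⟩, h5⟩ := hw
    refine ⟨⟨⟨h1, h4⟩, h2, h3⟩, ?_⟩
    linear_combination h5
  · intro w _
    rfl
  · intro w _
    rfl

end Pool.Agent.H16.DI
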