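import Pool.Agent.H16.DI.A1

set_option autoImplicit false

/-!
# Sets nearly invariant under dilations: character sums
-/

namespace Pool.Agent.H16.DI

open Finset

/-- the energy of a large nearly invariant set is small -/
theorem energy (ε : ℝ) (hε : 0 < ε) : ∃ c₀ : ℝ, 0 < c₀ ∧ ∀ c : ℝ, 0 < c → c ≤ c₀ → ∃ P : ℕ,
    ∀ (p : ℕ) [Fact p.Prime], P ≤ p →
    ∀ G X : Finset (ZMod p), (0 : ZMod p) ∉ G → (p : ℝ) ^ ε ≤ G.card → Inv ε G X → (p : ℝ) ^ (1 / 2 - c) ≤ X.card →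
      (en X X : ℝ) ≤ (p : ℝ) ^ (-(1 / 2) - c) * (X.card : ℝ) ^ 4 := by
  set δ : ℝ := min ε (1 / 4) with hδ
  have hδ0 : 0 < δ := by positivity
  obtain ⟨k₀, γ, hγ, P1, h1⟩ := fourier δ hδ0
  set g : ℝ := min (min ε γ) 1 / 2 with hg
  have hg0 : 0 < g := by positivity
  have hg1 : 2 * g ≤ ε := by rw [hg]; linarith [min_le_left (min ε γ) 1, min_le_left ε γ]
  have hg2 : 2 * g ≤ γ := by rw [hg]; linarith [min_le_left (min ε γ) 1, min_le_right ε γ]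
  have hg3 : 2 * g ≤ 1 := by rw [hg]; linarith [min_le_right (min ε γ) 1]
  refine ⟨g / 2, by positivity, fun c hc hcg => ?_⟩
  obtain ⟨P2, hP2⟩ := SQ.large_pow g hg0 (2 * k₀ + 1 + 2)
  refine ⟨P1 + P2 + 16, fun p _ hp G X h0 hG hinv hX => ?_⟩
  have hp16 : (16:ℝ) ≤ p := by exact_mod_cast (by omega : 16 ≤ p)
  have hp0 : (0:ℝ) < p := by linarith
  have hp1 : (1:ℝ) ≤ p := by linarith
  have hGδ : (p : ℝ) ^ δ ≤ G.card := (Real.rpow_le_rpow_of_exponent_le hp1 (min_le_left _ _)).trans hG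
  have hXδ : (p : ℝ) ^ δ ≤ X.card := by
    refine (Real.rpow_le_rpow_of_exponent_le hp1 ?_).trans hX
    have := min_le_right ε (1 / 4)
    linarith
  have hX0 : (0:ℝ) < X.card := lt_of_lt_of_le (by positivity) hX
  have hpg : (2 * k₀ + 1 + 2 : ℝ) ≤ (p : ℝ) ^ g := by
    have := hP2 p (by omega)
    push_cast at this
    exact this
  have h2 : ∀ a : ZMod p, a ≠ 0 → ‖F X a‖ ≤ (p : ℝ) ^ (-g) * X.card := by
    intro a ha
    refine (h1 p (by omega) ε G X h0 hGδ hXδ hinv a ha).trans ?_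
    apply mul_le_mul_of_nonneg_right _ hX0.le
    have e1 : (p : ℝ) ^ (-ε) ≤ (p : ℝ) ^ (-(2 * g)) := Real.rpow_le_rpow_of_exponent_le hp1 (by linarith)
    have e2 : (p : ℝ) ^ (-γ) ≤ (p : ℝ) ^ (-(2 * g)) := Real.rpow_le_rpow_of_exponent_le hp1 (by linarith)
    have e3 : (p : ℝ) ^ (-g) = (p : ℝ) ^ g * (p : ℝ) ^ (-(2 * g)) := by
      rw [← Real.rpow_add hp0]; congr 1; ring
    rw [e3]
    calc 2 * k₀ * (p : ℝ) ^ (-ε) + (p : ℝ) ^ (-γ) ≤ 2 * k₀ * (p : ℝ) ^ (-(2 * g)) + (p : ℝ) ^ (-(2 * g)) := by gcongr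
      _ = (2 * k₀ + 1) * (p : ℝ) ^ (-(2 * g)) := by ring
      _ ≤ (p : ℝ) ^ g * (p : ℝ) ^ (-(2 * g)) := by
          apply mul_le_mul_of_nonneg_right _ (by positivity)
          linarith
  have h3 := en_small X _ h2
  have e1 : (X.card : ℝ) ^ 4 / p ≤ (1 / 2) * ((p : ℝ) ^ (-(1 / 2) - c) * (X.card : ℝ) ^ 4) := by
    have h4 : (p : ℝ) ^ (-(1 : ℝ)) * 2 ≤ (p : ℝ) ^ (-(1 / 2) - c) := by
      have h5 : (2:ℝ) ≤ (p : ℝ) ^ (1 / 4 : ℝ) := by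
        have : (2:ℝ) = (16 : ℝ) ^ (1 / 4 : ℝ) := by
          rw [show (16:ℝ) = 2 ^ (4:ℝ) by norm_num, ← Real.rpow_mul (by norm_num)]
          norm_num
        rw [this]
        exact Real.rpow_le_rpow (by norm_num) hp16 (by norm_num)
      calc (p : ℝ) ^ (-(1 : ℝ)) * 2 ≤ (p : ℝ) ^ (-(1 : ℝ)) * (p : ℝ) ^ (1 / 4 : ℝ) := by gcongr
        _ = (p : ℝ) ^ (-(1 : ℝ) + 1 / 4) := by rw [← Real.rpow_add hp0]
        _ ≤ _ := Real.rpow_le_rpow_of_exponent_le hp1 (by linarith)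
    rw [Real.rpow_neg_one] at h4
    have h5 : (X.card : ℝ) ^ 4 / p = ((p : ℝ)⁻¹ * 2) * (1 / 2 * (X.card : ℝ) ^ 4) := by
      field_simp
    rw [h5]
    calc ((p : ℝ)⁻¹ * 2) * (1 / 2 * (X.card : ℝ) ^ 4) ≤ (p : ℝ) ^ (-(1 / 2) - c) * (1 / 2 * (X.card : ℝ) ^ 4) := by
          gcongr
      _ = _ := by ring
  have e2 : ((p : ℝ) ^ (-g)) ^ 2 * (X.card : ℝ) ^ 3 ≤ (1 / 2) * ((p : ℝ) ^ (-(1 / 2) - c) * (X.card : ℝ) ^ 4) := by
    have h4 : 2 * ((p : ℝ) ^ (-g)) ^ 2 ≤ (p : ℝ) ^ (-(1 / 2) - c) * X.card := by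
      have h5 : 2 * ((p : ℝ) ^ (-g)) ^ 2 ≤ (p : ℝ) ^ (-g) := by
        have e3 : ((p : ℝ) ^ (-g)) ^ 2 = (p : ℝ) ^ (-(2 * g)) := by
          rw [← Real.rpow_natCast, ← Real.rpow_mul hp0.le]; congr 1; push_cast; ring
        have e4 : (p : ℝ) ^ (-g) = (p : ℝ) ^ g * (p : ℝ) ^ (-(2 * g)) := by
          rw [← Real.rpow_add hp0]; congr 1; ring
        rw [e3, e4]
        apply mul_le_mul_of_nonneg_right _ (by positivity)
        have : (0:ℝ) ≤ k₀ := Nat.cast_nonneg _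
        linarith
      refine h5.trans ?_
      calc (p : ℝ) ^ (-g) ≤ (p : ℝ) ^ (-(1 / 2) - c + (1 / 2 - c)) :=
            Real.rpow_le_rpow_of_exponent_le hp1 (by linarith)
        _ = (p : ℝ) ^ (-(1 / 2) - c) * (p : ℝ) ^ (1 / 2 - c) := by rw [Real.rpow_add hp0]
        _ ≤ _ := by gcongr
    calc ((p : ℝ) ^ (-g)) ^ 2 * (X.card : ℝ) ^ 3 = (1 / 2) * ((2 * ((p : ℝ) ^ (-g)) ^ 2) * (X.card : ℝ) ^ 3) := by ring
      _ ≤ (1 / 2) * (((p : ℝ) ^ (-(1 / 2) - c) * X.card) * (X.card : ℝ) ^ 3) := by gcongr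
      _ = _ := by ring
  linarith

/-- the character sum over the differences of two nearly invariant sets of small energy -/
theorem step (ε c : ℝ) (hε : 0 < ε) (hc : 0 < c) : ∃ τ : ℝ, 0 < τ ∧ ∃ P : ℕ,
    ∀ (p : ℕ) [Fact p.Prime], P ≤ p → ∀ χ : DirichletCharacter ℂ p, χ ≠ 1 →
    ∀ G X Y : Finset (ZMod p), (0 : ZMod p) ∉ G → (p : ℝ) ^ ε ≤ G.card → Inv ε G X → Inv ε G Y →
      (en X X : ℝ) ≤ (p : ℝ) ^ (-(1 / 2) - c) * (X.card : ℝ) ^ 4 →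
      (en Y Y : ℝ) ≤ (p : ℝ) ^ (-(1 / 2) - c) * (Y.card : ℝ) ^ 4 → ∀ d : ZMod p, d ≠ 0 →
      ‖∑ x ∈ X, ∑ y ∈ Y, χ (x - y + d)‖ ≤ (p : ℝ) ^ (-τ) * (X.card * Y.card) := by
  set r : ℕ := ⌈1 / ε⌉₊ + 1 with hr
  have hr1 : 1 ≤ r := by omega
  have hrε : 1 / 2 ≤ ε * r := by
    have h1 : 1 / ε ≤ r := by
      rw [hr]; push_cast
      have := Nat.le_ceil (1 / ε)
      linarith
    have h2 : 1 ≤ ε * r := by
      rw [div_le_iff₀ hε] at h1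
      linarith
    linarith
  have hr0 : (0:ℝ) < r := by exact_mod_cast hr1
  set τ : ℝ := min (c / (2 * (2 * r))) (ε / 2) / 2 with hτ
  have hτ0 : 0 < τ := by positivity
  have hτ1 : 2 * τ ≤ c / (2 * (2 * r)) := by rw [hτ]; linarith [min_le_left (c / (2 * (2 * r))) (ε / 2)]
  have hτ2 : 2 * τ ≤ ε := by rw [hτ]; linarith [min_le_right (c / (2 * (2 * r))) (ε / 2)]
  obtain ⟨P1, hP1⟩ := SQ.large_pow (c / 2) (by positivity) ((r : ℝ) ^ (2 * r) + 2 * r)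
  obtain ⟨P2, hP2⟩ := SQ.large_pow τ hτ0 5
  refine ⟨τ, hτ0, P1 + P2 + 2, fun p _ hp χ hχ G X Y h0 hG hX hY hEX hEY d hd => ?_⟩
  classical
  have hp1' : (1:ℝ) < p := by exact_mod_cast (Fact.out : p.Prime).one_lt
  have hp1 : (1:ℝ) ≤ p := hp1'.le
  have hp0 : (0:ℝ) < p := by linarith
  have hG0 : (0:ℝ) < G.card := lt_of_lt_of_le (by positivity) hG
  rcases eq_or_ne X.card 0 with hX0 | hX0
  · rw [card_eq_zero] at hX0
    rw [hX0]; simp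
  rcases eq_or_ne Y.card 0 with hY0 | hY0
  · rw [card_eq_zero] at hY0
    rw [hY0]; simp
  have hXp : (0:ℝ) < X.card := by exact_mod_cast Nat.pos_of_ne_zero hX0
  have hYp : (0:ℝ) < Y.card := by exact_mod_cast Nat.pos_of_ne_zero hY0
  -- the dilated sums
  have h1 : ∀ g ∈ G, ‖∑ x ∈ X, ∑ y ∈ Y, χ (g * x - g * y + d) - ∑ x ∈ X, ∑ y ∈ Y, χ (x - y + d)‖ ≤
      4 * (p : ℝ) ^ (-ε) * (X.card * Y.card) := by
    intro g hg
    have hg0 : g ≠ 0 := fun h => h0 (h ▸ hg)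
    have a1 : ‖∑ x ∈ X, ∑ y ∈ Y, (χ (g * x - g * y + d) - χ (x - g * y + d))‖ ≤
        2 * ((p : ℝ) ^ (-ε) * X.card) * Y.card := by
      rw [sum_comm]
      have : ∀ y ∈ Y, ‖∑ x ∈ X, (χ (g * x - g * y + d) - χ (x - g * y + d))‖ ≤ 2 * ((p : ℝ) ^ (-ε) * X.card) := by
        intro y _
        rw [sum_sub_distrib]
        refine (dilate_sum X g hg0 (fun x => χ (x - g * y + d)) (fun x => DirichletCharacter.norm_le_one χ _)).trans ?_
        exact mul_le_mul_of_nonneg_left (hX g hg) (by norm_num)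
      refine (norm_sum_le _ _).trans ((sum_le_sum this).trans ?_)
      rw [sum_const, nsmul_eq_mul]
      exact le_of_eq (by ring)
    have a2 : ‖∑ x ∈ X, ∑ y ∈ Y, (χ (x - g * y + d) - χ (x - y + d))‖ ≤
        2 * ((p : ℝ) ^ (-ε) * Y.card) * X.card := by
      have : ∀ x ∈ X, ‖∑ y ∈ Y, (χ (x - g * y + d) - χ (x - y + d))‖ ≤ 2 * ((p : ℝ) ^ (-ε) * Y.card) := by
        intro x _
        rw [sum_sub_distrib]
        refine (dilate_sum Y g hg0 (fun y => χ (x - y + d)) (fun x => DirichletCharacter.norm_le_one χ _)).trans ?_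
        exact mul_le_mul_of_nonneg_left (hY g hg) (by norm_num)
      refine (norm_sum_le _ _).trans ((sum_le_sum this).trans ?_)
      rw [sum_const, nsmul_eq_mul]
      exact le_of_eq (by ring)
    have e : ∑ x ∈ X, ∑ y ∈ Y, χ (g * x - g * y + d) - ∑ x ∈ X, ∑ y ∈ Y, χ (x - y + d) =
        ∑ x ∈ X, ∑ y ∈ Y, (χ (g * x - g * y + d) - χ (x - g * y + d)) +
        ∑ x ∈ X, ∑ y ∈ Y, (χ (x - g * y + d) - χ (x - y + d)) := by
      simp only [sum_sub_distrib]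
      ring
    rw [e]
    refine (norm_add_le _ _).trans ((add_le_add a1 a2).trans (le_of_eq ?_))
    ring
  set S := ∑ x ∈ X, ∑ y ∈ Y, χ (x - y + d) with hS
  -- the mean value
  set s : Finset (ZMod p) := G.image (fun g => d * g⁻¹) with hs
  have hinj : Set.InjOn (fun g : ZMod p => d * g⁻¹) G := by
    intro a _ b _ hab
    exact inv_injective (mul_left_cancel₀ hd hab)
  have hscard : s.card = G.card := by rw [hs, card_image_of_injOn hinj]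
  set cf : ZMod p → ℂ := fun b => χ (d * b⁻¹) with hcf
  have hcf1 : ∀ j, ‖cf j‖ ≤ 1 := fun j => DirichletCharacter.norm_le_one χ _
  have hmom := Pool.Agent.W27.BG.momF_w χ hχ r hr1 s cf hcf1
  rw [hscard] at hmom
  have hM : ∑ x : ZMod p, ‖∑ b ∈ s, cf b * χ (x + b)‖ ^ (2 * r) ≤
      ((r : ℝ) ^ (2 * r) + 2 * r) * (G.card : ℝ) ^ (2 * r) * Real.sqrt p := by
    refine hmom.trans ?_
    have hB : Real.sqrt p ≤ (G.card : ℝ) ^ r := by
      rw [Real.sqrt_eq_rpow]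
      calc (p : ℝ) ^ (1 / 2 : ℝ) ≤ (p : ℝ) ^ (ε * r) := Real.rpow_le_rpow_of_exponent_le hp1 hrε
        _ = ((p : ℝ) ^ ε) ^ r := by rw [Real.rpow_mul hp0.le, Real.rpow_natCast]
        _ ≤ _ := pow_le_pow_left₀ (by positivity) hG r
    have h3 : (p : ℝ) ≤ (G.card : ℝ) ^ r * Real.sqrt p := by
      calc (p : ℝ) = Real.sqrt p * Real.sqrt p := (Real.mul_self_sqrt hp0.le).symm
        _ ≤ _ := mul_le_mul_of_nonneg_right hB (Real.sqrt_nonneg _)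
    calc (r : ℝ) ^ (2 * r) * (G.card : ℝ) ^ r * p + (2 * r) * (G.card : ℝ) ^ (2 * r) * Real.sqrt p
        ≤ (r : ℝ) ^ (2 * r) * (G.card : ℝ) ^ r * ((G.card : ℝ) ^ r * Real.sqrt p) +
          (2 * r) * (G.card : ℝ) ^ (2 * r) * Real.sqrt p := by gcongr
      _ = _ := by rw [two_mul r, pow_add]; ring
  have hT0 : (0:ℝ) < X.card * Y.card := by positivity
  have hE : (SQ.coll (X ×ˢ Y) (fun w : ZMod p × ZMod p => w.1 - w.2) : ℝ) ≤
      (p : ℝ) ^ (-(1 / 2) - c) * ((X.card : ℝ) * Y.card) ^ 2 := by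
    have e1 : ∀ Z : Finset (ZMod p), (p : ℝ) ^ (-(1 / 2) - c) * (Z.card : ℝ) ^ 4 =
        ((p : ℝ) ^ ((-(1 / 2) - c) / 2) * (Z.card : ℝ) ^ 2) ^ 2 := by
      intro Z
      rw [mul_pow, ← Real.rpow_natCast ((p : ℝ) ^ ((-(1 / 2) - c) / 2)), ← Real.rpow_mul hp0.le]
      push_cast
      rw [div_mul_cancel₀ _ (by norm_num : (2:ℝ) ≠ 0)]
      ring
    rw [e1] at hEX hEY
    have h3 := en_le X Y _ _ hEX hEY (by positivity) (by positivity)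
    refine h3.trans (le_of_eq ?_)
    have : (p : ℝ) ^ (-(1 / 2) - c) = (p : ℝ) ^ ((-(1 / 2) - c) / 2) * (p : ℝ) ^ ((-(1 / 2) - c) / 2) := by
      rw [← Real.rpow_add hp0]; congr 1; ring
    rw [this]
    ring
  have hH := SQ.holder (X ×ˢ Y) (fun w : ZMod p × ZMod p => w.1 - w.2) (fun x => ‖∑ b ∈ s, cf b * χ (x + b)‖)
    (fun x => norm_nonneg _) r hr1 (T := X.card * Y.card) (by rw [card_product]; push_cast; exact le_rfl) hT0 hE hM
  have hfin : (G.card : ℝ) ^ (2 * r) * (((r : ℝ) ^ (2 * r) + 2 * r) * (p : ℝ) ^ (-c)) =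
      (((r : ℝ) ^ (2 * r) + 2 * r) * (G.card : ℝ) ^ (2 * r) * Real.sqrt p *
        ((p : ℝ) ^ (-(1 / 2) - c) * ((X.card : ℝ) * Y.card) ^ 2) / ((X.card : ℝ) * Y.card) ^ 2) := by
    have e2 : Real.sqrt p * (p : ℝ) ^ (-(1 / 2) - c) = (p : ℝ) ^ (-c) := by
      rw [Real.sqrt_eq_rpow, ← Real.rpow_add hp0]; congr 1; ring
    rw [← e2]
    field_simp
  rw [← hfin] at hH
  have hsm : ((G.card : ℝ) ^ (2 * r) * (((r : ℝ) ^ (2 * r) + 2 * r) * (p : ℝ) ^ (-c))) ^ (1 / (2 * r : ℝ)) ≤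
      G.card * (p : ℝ) ^ (-(2 * τ)) := by
    have e3 : ((r : ℝ) ^ (2 * r) + 2 * r) * (p : ℝ) ^ (-c) ≤ (p : ℝ) ^ (-(c / 2)) := by
      have := hP1 p (by omega)
      calc ((r : ℝ) ^ (2 * r) + 2 * r) * (p : ℝ) ^ (-c) ≤ (p : ℝ) ^ (c / 2) * (p : ℝ) ^ (-c) := by gcongr
        _ = _ := by rw [← Real.rpow_add hp0]; congr 1; ring
    rw [Real.mul_rpow (by positivity) (by positivity), ← Real.rpow_natCast (G.card : ℝ) (2 * r),
      ← Real.rpow_mul (Nat.cast_nonneg _)]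
    push_cast
    rw [mul_one_div_cancel (by positivity), Real.rpow_one]
    apply mul_le_mul_of_nonneg_left _ hG0.le
    calc (((r : ℝ) ^ (2 * r) + 2 * r) * (p : ℝ) ^ (-c)) ^ (1 / (2 * r : ℝ)) ≤ ((p : ℝ) ^ (-(c / 2))) ^ (1 / (2 * r : ℝ)) :=
          Real.rpow_le_rpow (by positivity) e3 (by positivity)
      _ = (p : ℝ) ^ (-(c / (2 * (2 * r)))) := by
          rw [← Real.rpow_mul hp0.le]; congr 1; field_simp
      _ ≤ _ := Real.rpow_le_rpow_of_exponent_le hp1 (by linarith)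
  have hpt : ∀ g ∈ G, ∀ z : ZMod p, cf (d * g⁻¹) * χ (z + d * g⁻¹) = χ (g * z + d) := by
    intro g hg z
    have hg0 : g ≠ 0 := fun h => h0 (h ▸ hg)
    rw [hcf]
    simp only
    rw [← map_mul]
    congr 1
    field_simp
  have h2 : ‖∑ g ∈ G, ∑ x ∈ X, ∑ y ∈ Y, χ (g * x - g * y + d)‖ ≤
      X.card * Y.card * (G.card * (p : ℝ) ^ (-(2 * τ))) := by
    have e4 : ∑ g ∈ G, ∑ x ∈ X, ∑ y ∈ Y, χ (g * x - g * y + d) =
        ∑ w ∈ X ×ˢ Y, ∑ b ∈ s, cf b * χ ((w.1 - w.2) + b) := by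
      rw [sum_comm, sum_product]
      refine sum_congr rfl fun x _ => ?_
      rw [sum_comm]
      refine sum_congr rfl fun y _ => ?_
      rw [hs, sum_image hinj]
      refine sum_congr rfl fun g hg => ?_
      rw [hpt g hg]
      congr 1; ring
    rw [e4]
    refine (norm_sum_le _ _).trans (hH.trans ?_)
    exact mul_le_mul_of_nonneg_left hsm hT0.le
  have h3 : (G.card : ℝ) * ‖S‖ ≤ G.card * ((X.card * Y.card) * (5 * (p : ℝ) ^ (-(2 * τ)))) := by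
    have e5 : (G.card : ℂ) * S = ∑ g ∈ G, ∑ x ∈ X, ∑ y ∈ Y, χ (g * x - g * y + d) -
        ∑ g ∈ G, (∑ x ∈ X, ∑ y ∈ Y, χ (g * x - g * y + d) - S) := by
      rw [sum_sub_distrib, sum_const, nsmul_eq_mul]
      ring
    have e6 : (G.card : ℝ) * ‖S‖ = ‖(G.card : ℂ) * S‖ := by rw [norm_mul, Complex.norm_natCast]
    rw [e6, e5]
    refine (norm_sub_le _ _).trans ?_
    have e7 : ‖∑ g ∈ G, (∑ x ∈ X, ∑ y ∈ Y, χ (g * x - g * y + d) - S)‖ ≤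
        G.card * (4 * (p : ℝ) ^ (-ε) * (X.card * Y.card)) := by
      refine (norm_sum_le _ _).trans ((sum_le_sum h1).trans ?_)
      rw [sum_const, nsmul_eq_mul]
    have e8 : (p : ℝ) ^ (-ε) ≤ (p : ℝ) ^ (-(2 * τ)) := Real.rpow_le_rpow_of_exponent_le hp1 (by linarith)
    calc ‖∑ g ∈ G, ∑ x ∈ X, ∑ y ∈ Y, χ (g * x - g * y + d)‖ +
          ‖∑ g ∈ G, (∑ x ∈ X, ∑ y ∈ Y, χ (g * x - g * y + d) - S)‖
        ≤ X.card * Y.card * (G.card * (p : ℝ) ^ (-(2 * τ))) + G.card * (4 * (p : ℝ) ^ (-(2 * τ)) * (X.card * Y.card)) := by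
          refine add_le_add h2 (e7.trans ?_)
          gcongr
      _ = _ := by ring
  have h4 := le_of_mul_le_mul_left h3 hG0
  refine h4.trans ?_
  rw [mul_comm ((p : ℝ) ^ (-τ))]
  apply mul_le_mul_of_nonneg_left _ hT0.le
  have h5 := hP2 p (by omega)
  have e9 : (p : ℝ) ^ (-τ) = (p : ℝ) ^ τ * (p : ℝ) ^ (-(2 * τ)) := by
    rw [← Real.rpow_add hp0]; congr 1; ring
  rw [e9]
  exact mul_le_mul_of_nonneg_right h5 (by positivity)

end Pool.Agent.H16.DI
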